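import Pool.Agent.Helper19.PS.DefsA
import Pool.Agent.Helper77.OneVar

/-!
# Project PS, piece PS-20: the one-variable inequality with a gain
-/

namespace Pool.Agent.Helper19.PS

open Real intervalIntegral Pool.Agent.Helper77.OneVar

theorem ps20_half_rpow : (1 / 2 : ℝ) ^ (((5 : ℕ) : ℝ) / 2) ≤ 0.1768 := by
  have h2 : ((1 / 2 : ℝ) ^ (((5 : ℕ) : ℝ) / 2)) ^ 2 = 1 / 32 := by
    rw [← rpow_natCast, ← rpow_mul (by norm_num)]
    have : ((5 : ℕ) : ℝ) / 2 * ((2 : ℕ) : ℝ) = ((5 : ℕ) : ℝ) := by push_cast; ring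
    rw [this, rpow_natCast]
    norm_num
  have h3 : 0 ≤ (1 / 2 : ℝ) ^ (((5 : ℕ) : ℝ) / 2) := by positivity
  nlinarith

theorem ps20_gint_lower (n : ℕ) (hn : 5 ≤ n) :
    2 * π * (1 / 2 : ℝ) ^ ((n : ℝ) / 2) ≤ 0.53 * gint n := by
  induction n using Nat.strong_induction_on with
  | _ n ih =>
    rcases Nat.lt_or_ge n 7 with h | h
    · interval_cases n
      · rw [gint_five]
        have h1 := ps20_half_rpow
        have h2 := pi_lt_d2
        have h3 := pi_pos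
        nlinarith
      · rw [gint_six]
        have h1 : (1 / 2 : ℝ) ^ (((6 : ℕ) : ℝ) / 2) = 1 / 8 := by
          have : ((6 : ℕ) : ℝ) / 2 = ((3 : ℕ) : ℝ) := by push_cast; ring
          rw [this, rpow_natCast]
          norm_num
        rw [h1]
        have h3 := pi_pos
        nlinarith
    · obtain ⟨m, rfl⟩ : ∃ m, n = m + 2 := ⟨n - 2, by omega⟩
      have h1 := ih m (by omega) (by omega)
      rw [gint_succ]
      have h2 : (1 / 2 : ℝ) ^ (((m + 2 : ℕ) : ℝ) / 2) = (1 / 2) ^ ((m : ℝ) / 2) * (1 / 2) := by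
        rw [← rpow_add_one (by norm_num)]
        congr 1
        push_cast; ring
      rw [h2]
      have h3 := gint_pos m
      have h4 : (1 / 2 : ℝ) ≤ (m + 1) / (m + 2) := by
        rw [div_le_div_iff₀ (by norm_num) (by positivity)]
        have : (0 : ℝ) ≤ m := by positivity
        linarith
      have h5 : 1 / 2 * gint m ≤ (m + 1) / (m + 2) * gint m :=
        mul_le_mul_of_nonneg_right h4 h3.le
      nlinarith

theorem ps20_reduction {n : ℕ} (hn : 3 ≤ n) {u : ℝ} (hu0 : 0 < u) (hu : u ≤ 1 / 2)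
    (h10 : ((2 * (n : ℝ) ^ 2 + 4 * n + 3) * (n - 2) + 6) * Jint u (n / 2) +
      n * (2 * n ^ 2 - 4 * n - 3) * Xint u 1 0 (n / 2 - 1) +
      (4 * n + 3) * (n - 2) * (u * (1 - u)) * Xint u 1 0 (n / 2 - 2) ≤
        4 * n * (n + 1) * (n - 2) * gint n * (1 - u / 2))
    (h01 : ((2 * (n : ℝ) ^ 2 + 4 * n + 3) * (n - 2) + 6) * Jint u (n / 2) +
      n * (2 * n ^ 2 - 4 * n - 3) * Xint u 0 1 (n / 2 - 1) +
      (4 * n + 3) * (n - 2) * (u * (1 - u)) * Xint u 0 1 (n / 2 - 2) ≤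
        4 * n * (n + 1) * (n - 2) * gint n * (1 - u / 2 - 1 / (2 * n)))
    (a b g : ℝ) (ha : 0 ≤ a) (hb : 0 ≤ b) (hab : a + b = 1) :
    (∫ t in (0 : ℝ)..(2 * π),
      ((2 * n + 3) * (((1 - u) * cos t ^ 2 + u * sin t ^ 2) ^ ((n : ℝ) / 2)
          + n * (a * cos t ^ 2 + b * sin t ^ 2 + g * (sin t * cos t))
            * ((1 - u) * cos t ^ 2 + u * sin t ^ 2) ^ ((n : ℝ) / 2 - 1))
        - (3 * n + 6) * (a * cos t ^ 2 + b * sin t ^ 2 + g * (sin t * cos t))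
            * ((1 - u) * cos t ^ 2 + u * sin t ^ 2) ^ ((n : ℝ) / 2)
        + (n + 3) * (u * (1 - u)) * (a * cos t ^ 2 + b * sin t ^ 2 + g * (sin t * cos t))
            * ((1 - u) * cos t ^ 2 + u * sin t ^ 2) ^ ((n : ℝ) / 2 - 2)))
      ≤ 2 * (n + 1) * n * (2 * (∫ t in (0 : ℝ)..(2 * π), |cos t| ^ n)
            * (1 - (n * u + b) / (2 * n))
          - ∫ t in (0 : ℝ)..(2 * π), ((1 - u) * cos t ^ 2 + u * sin t ^ 2) ^ ((n : ℝ) / 2)) := by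
  have hn3 : (3 : ℝ) ≤ n := by exact_mod_cast hn
  have h1 := continuous_Cf_rpow hu0 hu ((n : ℝ) / 2)
  have h2 := continuous_Cf_rpow hu0 hu ((n : ℝ) / 2 - 1)
  have h3 := continuous_Cf_rpow hu0 hu ((n : ℝ) / 2 - 2)
  have h4 := continuous_kf a b
  have e : (∫ t in (0 : ℝ)..(2 * π),
      ((2 * n + 3) * (((1 - u) * cos t ^ 2 + u * sin t ^ 2) ^ ((n : ℝ) / 2)
          + n * (a * cos t ^ 2 + b * sin t ^ 2 + g * (sin t * cos t))
            * ((1 - u) * cos t ^ 2 + u * sin t ^ 2) ^ ((n : ℝ) / 2 - 1))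
        - (3 * n + 6) * (a * cos t ^ 2 + b * sin t ^ 2 + g * (sin t * cos t))
            * ((1 - u) * cos t ^ 2 + u * sin t ^ 2) ^ ((n : ℝ) / 2)
        + (n + 3) * (u * (1 - u)) * (a * cos t ^ 2 + b * sin t ^ 2 + g * (sin t * cos t))
            * ((1 - u) * cos t ^ 2 + u * sin t ^ 2) ^ ((n : ℝ) / 2 - 2))) =
      (2 * n + 3) * Jint u (n / 2) + (2 * n + 3) * n * Xint u a b (n / 2 - 1) -
        (3 * n + 6) * Xint u a b (n / 2) + (n + 3) * (u * (1 - u)) * Xint u a b (n / 2 - 2) := by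
    have e1 : (fun t : ℝ => ((2 * (n : ℝ) + 3) * (((1 - u) * cos t ^ 2 + u * sin t ^ 2) ^ ((n : ℝ) / 2)
          + n * (a * cos t ^ 2 + b * sin t ^ 2 + g * (sin t * cos t))
            * ((1 - u) * cos t ^ 2 + u * sin t ^ 2) ^ ((n : ℝ) / 2 - 1))
        - (3 * n + 6) * (a * cos t ^ 2 + b * sin t ^ 2 + g * (sin t * cos t))
            * ((1 - u) * cos t ^ 2 + u * sin t ^ 2) ^ ((n : ℝ) / 2)
        + (n + 3) * (u * (1 - u)) * (a * cos t ^ 2 + b * sin t ^ 2 + g * (sin t * cos t))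
            * ((1 - u) * cos t ^ 2 + u * sin t ^ 2) ^ ((n : ℝ) / 2 - 2))) =
        fun t => ((((((2 * n + 3) * Cf u t ^ ((n : ℝ) / 2) +
          (2 * n + 3) * n * (kf a b t * Cf u t ^ ((n : ℝ) / 2 - 1))) -
          (3 * n + 6) * (kf a b t * Cf u t ^ ((n : ℝ) / 2))) +
          (n + 3) * (u * (1 - u)) * (kf a b t * Cf u t ^ ((n : ℝ) / 2 - 2))) +
          ((2 * n + 3) * n * g) * ((sin t * cos t) * Cf u t ^ ((n : ℝ) / 2 - 1))) -
          ((3 * n + 6) * g) * ((sin t * cos t) * Cf u t ^ ((n : ℝ) / 2))) +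
          ((n + 3) * (u * (1 - u)) * g) * ((sin t * cos t) * Cf u t ^ ((n : ℝ) / 2 - 2)) := by
      funext t
      unfold Cf kf
      ring
    rw [e1, integral_add, integral_sub, integral_add, integral_add, integral_sub, integral_add]
    · simp only [intervalIntegral.integral_const_mul, sc_int]
      unfold Jint Xint
      ring
    all_goals
      apply Continuous.intervalIntegrable
      fun_prop
  rw [e]
  have hJ : ∫ t in (0 : ℝ)..(2 * π), ((1 - u) * cos t ^ 2 + u * sin t ^ 2) ^ ((n : ℝ) / 2) =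
      Jint u (n / 2) := rfl
  have hG : ∫ t in (0 : ℝ)..(2 * π), |cos t| ^ n = gint n := rfl
  rw [hJ, hG]
  have hibp := ibp' hu0 hu hab (n : ℝ)
  have hx1 := Xint_lin hu0 hu a b ((n : ℝ) / 2 - 1)
  have hx2 := Xint_lin hu0 hu a b ((n : ℝ) / 2 - 2)
  set J := Jint u (n / 2)
  set X0 := Xint u a b (n / 2)
  set X1 := Xint u a b (n / 2 - 1)
  set X2 := Xint u a b (n / 2 - 2)
  have hn0 : (0 : ℝ) < n := by linarith
  have hmain : ((2 * (n : ℝ) ^ 2 + 4 * n + 3) * (n - 2) + 6) * J +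
      n * (2 * n ^ 2 - 4 * n - 3) * X1 +
      (4 * n + 3) * (n - 2) * (u * (1 - u)) * X2 ≤
        4 * n * (n + 1) * (n - 2) * gint n * (1 - (n * u + b) / (2 * n)) := by
    have h5 := mul_le_mul_of_nonneg_left h10 ha
    have h6 := mul_le_mul_of_nonneg_left h01 hb
    rw [hx1, hx2]
    have h7 : ((2 * (n : ℝ) ^ 2 + 4 * n + 3) * (n - 2) + 6) * J =
        (a + b) * (((2 * (n : ℝ) ^ 2 + 4 * n + 3) * (n - 2) + 6) * J) := by
      rw [hab, one_mul]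
    have h7' : (1 - (n * u + b) / (2 * n)) = (a + b) * (1 - u / 2) - b * (1 / (2 * n)) := by
      rw [hab, one_mul]
      field_simp
      ring
    have h8 : 4 * (n : ℝ) * (n + 1) * (n - 2) * gint n * (1 - (n * u + b) / (2 * n)) =
        a * (4 * (n : ℝ) * (n + 1) * (n - 2) * gint n * (1 - u / 2)) +
        b * (4 * (n : ℝ) * (n + 1) * (n - 2) * gint n * (1 - u / 2 - 1 / (2 * n))) := by
      rw [h7']; ring
    rw [h7, h8]
    linarith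
  -- multiply the claim by (n - 2)
  have hn2 : (0 : ℝ) < n - 2 := by linarith
  have hX0 : (n - 2 : ℝ) * ((n + 2) * X0) = (n ^ 2 - n) * X1 -
      n * (n - 2) * (u * (1 - u)) * X2 - 2 * J := by linarith
  refine le_of_mul_le_mul_left ?_ hn2
  have h9 : (n - 2 : ℝ) * ((2 * n + 3) * J + (2 * n + 3) * n * X1 - (3 * n + 6) * X0 +
      (n + 3) * (u * (1 - u)) * X2) = (n - 2) * ((2 * n + 3) * J + (2 * n + 3) * n * X1 +
      (n + 3) * (u * (1 - u)) * X2) - 3 * ((n ^ 2 - n) * X1 -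
      n * (n - 2) * (u * (1 - u)) * X2 - 2 * J) := by
    rw [← hX0]; ring
  rw [h9]
  set θ := (1 - (n * u + b) / (2 * n))
  have h10 : (n - 2 : ℝ) * (2 * (n + 1) * n * (2 * gint n * θ - J)) -
      ((n - 2) * ((2 * n + 3) * J + (2 * n + 3) * n * X1 +
      (n + 3) * (u * (1 - u)) * X2) - 3 * ((n ^ 2 - n) * X1 -
      n * (n - 2) * (u * (1 - u)) * X2 - 2 * J)) = 4 * n * (n + 1) * (n - 2) * gint n * θ -
      (((2 * (n : ℝ) ^ 2 + 4 * n + 3) * (n - 2) + 6) * J +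
      n * (2 * n ^ 2 - 4 * n - 3) * X1 +
      (4 * n + 3) * (n - 2) * (u * (1 - u)) * X2) := by ring
  linarith

theorem ps20_goal10 {n : ℕ} (hn : 5 ≤ n) {u : ℝ} (hu0 : 0 < u) (hu : u ≤ 1 / 2) :
    ((2 * (n : ℝ) ^ 2 + 4 * n + 3) * (n - 2) + 6) * Jint u (n / 2) +
      n * (2 * n ^ 2 - 4 * n - 3) * Xint u 1 0 (n / 2 - 1) +
      (4 * n + 3) * (n - 2) * (u * (1 - u)) * Xint u 1 0 (n / 2 - 2) ≤
        4 * n * (n + 1) * (n - 2) * gint n * (1 - u / 2) := by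
  obtain ⟨h, hh, hG, hG2⟩ := large_aux hn
  have hn5 : (5 : ℝ) ≤ n := by exact_mod_cast hn
  have e1 : ((n : ℝ) / 2 - 1) = ((n - 2 : ℕ) : ℝ) / 2 := by
    rw [Nat.cast_sub (by omega)]; push_cast; ring
  have e2 : ((n : ℝ) / 2 - 2) = ((n - 2 : ℕ) : ℝ) / 2 - 1 := by
    rw [Nat.cast_sub (by omega)]; push_cast; ring
  have e3 : n - 2 + 2 = n := by omega
  have h1 := Jint_le hu0 hu n (by omega)
  have h2 := Xint10_le hu0 hu (n - 2) (by omega)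
  have h3 := Xint10_q hu0 hu (((n - 2 : ℕ) : ℝ) / 2)
  have h4 := Jint_le' hu0 hu (n - 2) (by omega)
  have h5 := ps20_gint_lower n hn
  rw [e3] at h2
  have hM : π * (1 / 2 : ℝ) ^ (((n - 2 : ℕ) : ℝ) / 2) = 2 * π * (1 / 2 : ℝ) ^ ((n : ℝ) / 2) := by
    have : (1 / 2 : ℝ) ^ ((n : ℝ) / 2) = (1 / 2 : ℝ) ^ (((n - 2 : ℕ) : ℝ) / 2) * (1 / 2) := by
      rw [← rpow_add_one (by norm_num), ← e1]; congr 1; ring
    rw [this]; ring
  rw [hM] at h2
  rw [e2, e1]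
  rw [hG] at h1 h2 h5 ⊢
  rw [hG2] at h4
  set J := Jint u ((n : ℝ) / 2)
  set X1 := Xint u 1 0 (((n - 2 : ℕ) : ℝ) / 2)
  set X2 := Xint u 1 0 (((n - 2 : ℕ) : ℝ) / 2 - 1)
  set J2 := Jint u (((n - 2 : ℕ) : ℝ) / 2)
  set M := 2 * π * (1 / 2 : ℝ) ^ ((n : ℝ) / 2)
  set N : ℝ := (n : ℝ)
  have hN2 : 0 ≤ N - 2 := by linarith
  have hN0 : 0 ≤ N := by linarith
  have hb0 : 0 ≤ (2 * N ^ 2 + 4 * N + 3) * (N - 2) + 6 := by positivity
  have hb1' : 0 ≤ 2 * N ^ 2 - 4 * N - 3 := by nlinarith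
  have hb1 : 0 ≤ N * (2 * N ^ 2 - 4 * N - 3) := by positivity
  have hb2 : 0 ≤ (4 * N + 3) * (N - 2) := by positivity
  have hBB : (1 - 2 * u) * ((N - 1) * h) + 2 * u * M ≤ (1 - 0.94 * u) * ((N - 1) * h) := by
    have := mul_le_mul_of_nonneg_left h5 (by linarith : 0 ≤ 2 * u)
    linarith
  have hJ := h1.trans hBB
  have hX1 := h2.trans hBB
  have hX2 : (u * (1 - u)) * X2 ≤ u * (N * h) := h3.trans (mul_le_mul_of_nonneg_left h4 hu0.le)
  have k0 := mul_le_mul_of_nonneg_left hJ hb0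
  have k1 := mul_le_mul_of_nonneg_left hX1 hb1
  have k2 := mul_le_mul_of_nonneg_left hX2 hb2
  have hfin : (4 * N + 3) * (N - 2) * (u * (N * h)) ≤
      4 * N * (N + 1) * (N - 2) * (0.44 * u * ((N - 1) * h)) := by
    have h6 : 4 * N + 3 ≤ 1.76 * ((N + 1) * (N - 1)) := by nlinarith
    have h7 : 0 ≤ (N - 2) * (u * (N * h)) := by positivity
    have h8 := mul_le_mul_of_nonneg_right h6 h7
    linarith
  have hsum : ((2 * N ^ 2 + 4 * N + 3) * (N - 2) + 6) + N * (2 * N ^ 2 - 4 * N - 3) =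
      4 * N * (N + 1) * (N - 2) := by ring
  have hid : ((2 * N ^ 2 + 4 * N + 3) * (N - 2) + 6) *
      ((1 - 0.94 * u) * ((N - 1) * h)) + N * (2 * N ^ 2 - 4 * N - 3) *
      ((1 - 0.94 * u) * ((N - 1) * h)) =
      4 * N * (N + 1) * (N - 2) * ((1 - 0.94 * u) * ((N - 1) * h)) := by
    rw [← hsum]; ring
  have e4 : (4 * N + 3) * (N - 2) * (u * (1 - u)) * X2 =
      (4 * N + 3) * (N - 2) * ((u * (1 - u)) * X2) := by ring
  have e5 : 4 * N * (N + 1) * (N - 2) * ((N - 1) * h) * (1 - u / 2) =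
      4 * N * (N + 1) * (N - 2) * ((1 - 0.94 * u) * ((N - 1) * h)) +
      4 * N * (N + 1) * (N - 2) * (0.44 * u * ((N - 1) * h)) := by ring
  rw [e4, e5]
  linarith

/-- for `n = 5`: `q X ≤ u (1 - u) π`. -/
theorem ps20_q5 {u : ℝ} (hu0 : 0 < u) (hu : u ≤ 1 / 2) :
    Xint u 0 1 (1 / 2) ≤ π := by
  have h1 := continuous_Cf_rpow hu0 hu (1 / 2)
  have h0 := continuous_kf 0 1
  rw [← int_one_sub_cos_sq]
  unfold Xint
  refine int_mono (by fun_prop) (by fun_prop) fun t => ?_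
  have hpos := Cf_pos hu0 hu t
  have hle : Cf u t ≤ 1 := by
    rw [Cf_eq]
    have := cos_sq_le_one t
    nlinarith
  have h3 : Cf u t ^ (1 / 2 : ℝ) ≤ 1 := rpow_le_one hpos.le hle (by norm_num)
  have h4 : 0 ≤ kf 0 1 t := kf_nonneg (by norm_num) (by norm_num) t
  calc kf 0 1 t * Cf u t ^ (1 / 2 : ℝ) ≤ kf 0 1 t * 1 := mul_le_mul_of_nonneg_left h3 h4
    _ = _ := by rw [mul_one, kf01]

theorem ps20_goal01_five {u : ℝ} (hu0 : 0 < u) (hu : u ≤ 1 / 2) :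
    ((2 * ((5 : ℕ) : ℝ) ^ 2 + 4 * ((5 : ℕ) : ℝ) + 3) * (((5 : ℕ) : ℝ) - 2) + 6) *
        Jint u (((5 : ℕ) : ℝ) / 2) +
      ((5 : ℕ) : ℝ) * (2 * ((5 : ℕ) : ℝ) ^ 2 - 4 * ((5 : ℕ) : ℝ) - 3) *
        Xint u 0 1 (((5 : ℕ) : ℝ) / 2 - 1) +
      (4 * ((5 : ℕ) : ℝ) + 3) * (((5 : ℕ) : ℝ) - 2) * (u * (1 - u)) *
        Xint u 0 1 (((5 : ℕ) : ℝ) / 2 - 2) ≤
        4 * ((5 : ℕ) : ℝ) * (((5 : ℕ) : ℝ) + 1) * (((5 : ℕ) : ℝ) - 2) * gint 5 *
          (1 - u / 2 - 1 / (2 * ((5 : ℕ) : ℝ))) := by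
  have h1 := Jint_le hu0 hu 5 (by norm_num)
  have h2 := Xint01_le hu0 hu 3 (by norm_num)
  have h3 := ps20_q5 hu0 hu
  have h5 := ps20_half_rpow
  have hM : π * (1 / 2 : ℝ) ^ (((3 : ℕ) : ℝ) / 2) = 2 * π * (1 / 2 : ℝ) ^ (((5 : ℕ) : ℝ) / 2) := by
    have : (1 / 2 : ℝ) ^ (((5 : ℕ) : ℝ) / 2) = (1 / 2 : ℝ) ^ (((3 : ℕ) : ℝ) / 2) * (1 / 2) := by
      rw [← rpow_add_one (by norm_num)]; congr 1; push_cast; ring
    rw [this]; ring
  rw [hM] at h2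
  have e1 : ((5 : ℕ) : ℝ) / 2 - 1 = ((3 : ℕ) : ℝ) / 2 := by push_cast; ring
  have e2 : ((5 : ℕ) : ℝ) / 2 - 2 = 1 / 2 := by push_cast; ring
  rw [e1, e2]
  rw [show 3 + 2 = 5 by norm_num, gint_three] at h2
  rw [gint_five] at h1 h2 ⊢
  have hM2 : 2 * π * (1 / 2 : ℝ) ^ (((5 : ℕ) : ℝ) / 2) ≤ 1.1138 + 0.0002 := by
    have h7 := pi_lt_d2
    have h8 := pi_pos
    have h9 : 0 ≤ (1 / 2 : ℝ) ^ (((5 : ℕ) : ℝ) / 2) := by positivity
    nlinarith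
  set J := Jint u (((5 : ℕ) : ℝ) / 2)
  set X1 := Xint u 0 1 (((3 : ℕ) : ℝ) / 2)
  set X2 := Xint u 0 1 (1 / 2)
  set M := 2 * π * (1 / 2 : ℝ) ^ (((5 : ℕ) : ℝ) / 2)
  have hX2 : X2 ≤ 3.15 := by
    have h7 := pi_lt_d2
    linarith
  have hq : 0 ≤ u * (1 - u) := by
    have : 0 ≤ 1 - u := by linarith
    positivity
  have k2 := mul_le_mul_of_nonneg_left hX2 hq
  have k3 := mul_le_mul_of_nonneg_left hM2 (by linarith : 0 ≤ 2 * u)
  push_cast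
  nlinarith [sq_nonneg (u - 0.69)]

theorem ps20_goal01_large {n : ℕ} (hn : 6 ≤ n) {u : ℝ} (hu0 : 0 < u) (hu : u ≤ 1 / 2) :
    ((2 * (n : ℝ) ^ 2 + 4 * n + 3) * (n - 2) + 6) * Jint u (n / 2) +
      n * (2 * n ^ 2 - 4 * n - 3) * Xint u 0 1 (n / 2 - 1) +
      (4 * n + 3) * (n - 2) * (u * (1 - u)) * Xint u 0 1 (n / 2 - 2) ≤
        4 * n * (n + 1) * (n - 2) * gint n * (1 - u / 2 - 1 / (2 * n)) := by
  obtain ⟨h, hh, hG, hG2⟩ := large_aux (by omega : 5 ≤ n)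
  have hn5 : (6 : ℝ) ≤ n := by exact_mod_cast hn
  have e1 : ((n : ℝ) / 2 - 1) = ((n - 2 : ℕ) : ℝ) / 2 := by
    rw [Nat.cast_sub (by omega)]; push_cast; ring
  have e2 : ((n : ℝ) / 2 - 2) = ((n - 2 : ℕ) : ℝ) / 2 - 1 := by
    rw [Nat.cast_sub (by omega)]; push_cast; ring
  have e3 : n - 2 + 2 = n := by omega
  have h1 := Jint_le hu0 hu n (by omega)
  have h2 := Xint01_le hu0 hu (n - 2) (by omega)
  have h3 := Xint01_q hu0 hu (((n - 2 : ℕ) : ℝ) / 2)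
  have h4 := Jint_le' hu0 hu (n - 2) (by omega)
  have h5 := ps20_gint_lower n (by omega)
  rw [e3] at h2
  have hM : π * (1 / 2 : ℝ) ^ (((n - 2 : ℕ) : ℝ) / 2) = 2 * π * (1 / 2 : ℝ) ^ ((n : ℝ) / 2) := by
    have : (1 / 2 : ℝ) ^ ((n : ℝ) / 2) = (1 / 2 : ℝ) ^ (((n - 2 : ℕ) : ℝ) / 2) * (1 / 2) := by
      rw [← rpow_add_one (by norm_num), ← e1]; congr 1; ring
    rw [this]; ring
  rw [hM] at h2
  rw [e2, e1]
  rw [hG] at h1 h2 h5 ⊢
  rw [hG2] at h2 h4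
  set J := Jint u ((n : ℝ) / 2)
  set X1 := Xint u 0 1 (((n - 2 : ℕ) : ℝ) / 2)
  set X2 := Xint u 0 1 (((n - 2 : ℕ) : ℝ) / 2 - 1)
  set J2 := Jint u (((n - 2 : ℕ) : ℝ) / 2)
  set M := 2 * π * (1 / 2 : ℝ) ^ ((n : ℝ) / 2)
  set N : ℝ := (n : ℝ)
  have hN2 : 0 ≤ N - 2 := by linarith
  have hN0 : 0 < N := by linarith
  have hb0 : 0 ≤ (2 * N ^ 2 + 4 * N + 3) * (N - 2) + 6 := by positivity
  have hb1' : 0 ≤ 2 * N ^ 2 - 4 * N - 3 := by nlinarith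
  have hb1 : 0 ≤ N * (2 * N ^ 2 - 4 * N - 3) := by positivity
  have hb2 : 0 ≤ (4 * N + 3) * (N - 2) := by positivity
  have hu1 : 0 ≤ 1 - u := by linarith
  have hu2 : 0 ≤ 1 - 2 * u := by linarith
  have hX2 : (u * (1 - u)) * X2 ≤ (1 - u) * (N * h) :=
    h3.trans (mul_le_mul_of_nonneg_left h4 hu1)
  have k0 := mul_le_mul_of_nonneg_left h1 hb0
  have k1 := mul_le_mul_of_nonneg_left h2 hb1
  have k2 := mul_le_mul_of_nonneg_left hX2 hb2
  have hinv : 4 * N * (N + 1) * (N - 2) * ((N - 1) * h) * (1 / (2 * N)) =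
      2 * (N + 1) * (N - 2) * ((N - 1) * h) := by
    field_simp
    ring
  -- first bracket
  have f1 : ((2 * N ^ 2 + 4 * N + 3) * (N - 2) + 6) * ((N - 1) * h) +
      N * (2 * N ^ 2 - 4 * N - 3) * (N * h - (N - 1) * h) +
      (4 * N + 3) * (N - 2) * (N * h) ≤ 4 * N * (N + 1) * (N - 2) * ((N - 1) * h) -
        2 * (N + 1) * (N - 2) * ((N - 1) * h) := by
    have h6 : 0 ≤ N ^ 3 - 5 * N ^ 2 - 3 * N + 1 := by
      nlinarith [mul_nonneg (mul_nonneg hN0.le hN0.le) (by linarith : (0 : ℝ) ≤ N - 6)]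
    have h7 : 0 ≤ 2 * h * (N - 2) := by positivity
    have h8 := mul_nonneg h6 h7
    have h9 : 4 * N * (N + 1) * (N - 2) * ((N - 1) * h) -
        2 * (N + 1) * (N - 2) * ((N - 1) * h) -
        (((2 * N ^ 2 + 4 * N + 3) * (N - 2) + 6) * ((N - 1) * h) +
        N * (2 * N ^ 2 - 4 * N - 3) * (N * h - (N - 1) * h) +
        (4 * N + 3) * (N - 2) * (N * h)) =
        (N ^ 3 - 5 * N ^ 2 - 3 * N + 1) * (2 * h * (N - 2)) := by ring
    linarith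
  -- second bracket
  have f2 : 4 * N * (N + 1) * (N - 2) * M + (4 * N + 3) * (N - 2) * (N * h) / 2 ≤
      4 * N * (N + 1) * (N - 2) * ((N - 1) * h) * (3 / 4) -
        2 * (N + 1) * (N - 2) * ((N - 1) * h) := by
    have h9 : 0 ≤ 4 * N * (N + 1) * (N - 2) := by positivity
    have h10 := mul_le_mul_of_nonneg_left h5 h9
    have h6 : (4 * N + 3) * N / 2 + 2 * ((N + 1) * (N - 1)) ≤ 0.88 * N * ((N + 1) * (N - 1)) := by
      nlinarith [mul_nonneg (mul_nonneg hN0.le hN0.le) (by linarith : (0 : ℝ) ≤ N - 6)]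
    have h7 : 0 ≤ (N - 2) * h := by positivity
    have h8 := mul_le_mul_of_nonneg_right h6 h7
    linarith
  have g1 := mul_le_mul_of_nonneg_left f1 hu2
  have g2 := mul_le_mul_of_nonneg_left f2 (by linarith : 0 ≤ 2 * u)
  have e4 : (4 * N + 3) * (N - 2) * (u * (1 - u)) * X2 =
      (4 * N + 3) * (N - 2) * ((u * (1 - u)) * X2) := by ring
  have e5 : 4 * N * (N + 1) * (N - 2) * ((N - 1) * h) * (1 - u / 2 - 1 / (2 * N)) =
      4 * N * (N + 1) * (N - 2) * ((N - 1) * h) * (1 - u / 2) -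
        4 * N * (N + 1) * (N - 2) * ((N - 1) * h) * (1 / (2 * N)) := by ring
  rw [e4, e5, hinv]
  have hid : ((2 * N ^ 2 + 4 * N + 3) * (N - 2) + 6) *
      ((1 - 2 * u) * ((N - 1) * h) + 2 * u * M) +
      N * (2 * N ^ 2 - 4 * N - 3) * ((1 - 2 * u) * (N * h - (N - 1) * h) + 2 * u * M) +
      (4 * N + 3) * (N - 2) * ((1 - u) * (N * h)) =
      (1 - 2 * u) * (((2 * N ^ 2 + 4 * N + 3) * (N - 2) + 6) * ((N - 1) * h) +
      N * (2 * N ^ 2 - 4 * N - 3) * (N * h - (N - 1) * h) +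
      (4 * N + 3) * (N - 2) * (N * h)) +
      2 * u * (4 * N * (N + 1) * (N - 2) * M + (4 * N + 3) * (N - 2) * (N * h) / 2) := by ring
  have hid2 : 4 * N * (N + 1) * (N - 2) * ((N - 1) * h) * (1 - u / 2) -
      2 * (N + 1) * (N - 2) * ((N - 1) * h) =
      (1 - 2 * u) * (4 * N * (N + 1) * (N - 2) * ((N - 1) * h) -
        2 * (N + 1) * (N - 2) * ((N - 1) * h)) +
      2 * u * (4 * N * (N + 1) * (N - 2) * ((N - 1) * h) * (3 / 4) -
        2 * (N + 1) * (N - 2) * ((N - 1) * h)) := by ring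
  linarith

/-- PS-20. -/
theorem oneVarG {n : ℕ} (hn : 5 ≤ n) : OneVarG n := by
  intro u hu0 hu a b g ha hb hab
  refine ps20_reduction (by omega) hu0 hu (ps20_goal10 hn hu0 hu) ?_ a b g ha hb hab
  rcases Nat.lt_or_ge n 6 with h | h
  · obtain rfl : n = 5 := by omega
    exact ps20_goal01_five hu0 hu
  · exact ps20_goal01_large h hu0 hu

end Pool.Agent.Helper19.PS
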